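import Pool.Agent.W813.NC.Stm

/-!
# Newton's identities for the traces of the exterior (symmetric) powers
-/

set_option autoImplicit false
set_option linter.unusedSectionVars false

open CategoryTheory MonoidalCategory

namespace Pool.Agent.W581.NC

open Pool.Agent.W492.MT (tpow tr)
open Pool.Agent.W492.KC (swp gins gsym)
open Pool.Agent.W239.KC
open Pool.Agent.W225.KC (gs gs_eq)
open Pool.Agent.W813.NC (pwm S_TRR S_PWG S_NWT)

universe v u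

variable {T : Type u} [Category.{v} T] [MonoidalCategory T] [SymmetricCategory T]

/-- the action of a scalar -/
def act (X : T) (s : 𝟙_ T ⟶ 𝟙_ T) : X ⟶ X := (ρ_ X).inv ≫ (X ◁ s) ≫ (ρ_ X).hom

theorem act_left (X : T) (s : 𝟙_ T ⟶ 𝟙_ T) :
    act X s = (λ_ X).inv ≫ (s ▷ X) ≫ (λ_ X).hom := by
  have h := BraidedCategory.braiding_naturality_right X s
  rw [braiding_tensorUnit_right] at h
  have h' : (X ◁ s) ≫ (ρ_ X).hom = (ρ_ X).hom ≫ (λ_ X).inv ≫ (s ▷ X) ≫ (λ_ X).hom := by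
    rw [← cancel_mono (λ_ X).inv]
    simpa only [Category.assoc, Iso.hom_inv_id, Category.comp_id] using h
  unfold act
  rw [h', Iso.inv_hom_id_assoc]

section rigid

variable [RightRigidCategory T]

theorem tr_act {X : T} (s : 𝟙_ T ⟶ 𝟙_ T) (g : X ⟶ X) : tr (act X s ≫ g) = s ≫ tr g := by
  have e : ((λ_ X).inv ≫ (s ▷ X) ≫ (λ_ X).hom) ▷ Xᘁ =
      (λ_ (X ⊗ Xᘁ)).inv ≫ (s ▷ (X ⊗ Xᘁ)) ≫ (λ_ (X ⊗ Xᘁ)).hom := by monoidal
  have e2 : (λ_ (𝟙_ T)).inv ≫ (s ▷ 𝟙_ T) ≫ (λ_ (𝟙_ T)).hom = s := by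
    rw [unitors_equal, rightUnitor_naturality, unitors_inv_equal, Iso.inv_hom_id_assoc]
  have e3 : η_ X Xᘁ ≫ (λ_ (X ⊗ Xᘁ)).inv ≫ (s ▷ (X ⊗ Xᘁ)) ≫ (λ_ (X ⊗ Xᘁ)).hom =
      s ≫ η_ X Xᘁ := by
    rw [leftUnitor_inv_naturality_assoc, whisker_exchange_assoc, leftUnitor_naturality]
    conv_rhs => rw [← e2]
    simp only [Category.assoc]
  unfold tr
  rw [act_left, comp_whiskerRight, e]
  have e4 := congrArg (fun z => z ≫ (g ▷ Xᘁ) ≫ (β_ X Xᘁ).hom ≫ ε_ X Xᘁ) e3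
  simpa only [Category.assoc] using e4

variable [Preadditive T] [MonoidalPreadditive T]

theorem tr_add {X : T} (g h : X ⟶ X) : tr (g + h) = tr g + tr h := by
  simp only [tr, MonoidalPreadditive.add_whiskerRight, Preadditive.add_comp, Preadditive.comp_add]

/-- the trace as a homomorphism -/
def trH (X : T) : (X ⟶ X) →+ (𝟙_ T ⟶ 𝟙_ T) := AddMonoidHom.mk' tr tr_add

theorem trH_apply {X : T} (g : X ⟶ X) : trH X g = tr g := rfl

theorem rpt_zsmul (Z : T) {A B : T} (m : ℤ) (g : A ⊗ Z ⟶ B ⊗ Z) :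
    rpt Z (m • g) = m • rpt Z g := by
  rw [← rptH_apply, map_zsmul, rptH_apply]

/-- the general recursion step -/
theorem step {X Y : T} (ε : ℤ) (G P g : X ⊗ Y ⟶ X ⊗ Y) (m : ℕ)
    (hGP : G ≫ P = P ≫ G) (hg : g ≫ G = (m + 1 : ℕ) • G) (p : Y ⟶ Y) (f : X ⟶ X)
    (hP : P = (X ◁ p) ≫ (f ▷ Y)) :
    rpt (X ⊗ Y) (((X ◁ G) ≫ (𝟙 (X ⊗ X ⊗ Y) + ε • (swp X Y ≫ (X ◁ g)))) ≫ (X ◁ P)) =
      act X (tr (G ≫ P)) + (ε * (m + 1 : ℕ)) • (rpt Y (G ≫ (X ◁ p)) ≫ f) := by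
  have e1 : ((X ◁ G) ≫ (𝟙 (X ⊗ X ⊗ Y) + ε • (swp X Y ≫ (X ◁ g)))) ≫ (X ◁ P) =
      X ◁ (G ≫ P) + ε • ((X ◁ G) ≫ (swp X Y ≫ (X ◁ (g ≫ P)))) := by
    rw [Preadditive.comp_add, Category.comp_id, Preadditive.add_comp, Preadditive.comp_zsmul,
      Preadditive.zsmul_comp, MonoidalCategory.whiskerLeft_comp, MonoidalCategory.whiskerLeft_comp]
    simp only [Category.assoc]
  have e2 : rpt (X ⊗ Y) ((X ◁ G) ≫ (swp X Y ≫ (X ◁ (g ≫ P)))) =
      (m + 1 : ℕ) • (rpt Y (G ≫ (X ◁ p)) ≫ f) := by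
    rw [rpt_cyc, Category.assoc, ← MonoidalCategory.whiskerLeft_comp, rpt_swp, Category.assoc,
      ← hGP, ← Category.assoc, hg, hP, ← rpt_right, Category.assoc, Preadditive.nsmul_comp,
      ← rptH_apply, map_nsmul, rptH_apply]
  rw [e1, rpt_add, rpt_zsmul, e2, rpt_whisker, mul_smul, natCast_zsmul]
  rfl

/-- the partial trace -/
def M {X : T} (f : X ⟶ X) (ε : ℤ) (n : ℕ) : X ⟶ X :=
  rpt (tpow X n) (gs ε X n ≫ (X ◁ pwm f n))

/-- the traces -/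
def c {X : T} (f : X ⟶ X) (ε : ℤ) (n : ℕ) : 𝟙_ T ⟶ 𝟙_ T := tr (gsym ε X n ≫ pwm f n)

theorem M_zero {X : T} (f : X ⟶ X) (ε : ℤ) : M f ε 0 = act X (c f ε 0) := by
  have h : gs ε X 0 ≫ (X ◁ pwm f 0) = X ◁ (gsym ε X 0 ≫ pwm f 0) := by
    rw [MonoidalCategory.whiskerLeft_comp, gs_eq]
    congr 1
    exact Category.comp_id _
  unfold M c act
  rw [h, rpt_whisker]

theorem pwm_succ {X : T} (f : X ⟶ X) (n : ℕ) :
    (pwm f (n + 1) : X ⊗ tpow X n ⟶ X ⊗ tpow X n) = (X ◁ pwm f n) ≫ (f ▷ tpow X n) := by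
  show f ⊗ₘ pwm f n = _
  rw [tensorHom_def']

theorem M_succ (h2 : S_PWG T) {X : T} (f : X ⟶ X) (ε : ℤ) (hε : ε * ε = 1) (m : ℕ) :
    M f ε (m + 1) = act X (c f ε (m + 1)) + (ε * (m + 1 : ℕ)) • (M f ε m ≫ f) :=
  step (X := X) (Y := tpow X m) ε (gsym ε X (m + 1)) (pwm f (m + 1)) (gins ε X m) m
    (h2 X X f ε (m + 1)) (Pool.Agent.W191.KCSym.gins_gsym ε hε X m) (pwm f m) f (pwm_succ f m)

theorem c_succ (h1 : S_TRR T) {X : T} (f : X ⟶ X) (ε : ℤ) (n : ℕ) :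
    c f ε (n + 1) = tr (M f ε n ≫ f) := by
  have e : (gsym ε X (n + 1) ≫ pwm f (n + 1) : X ⊗ tpow X n ⟶ X ⊗ tpow X n) =
      (gs ε X n ≫ (X ◁ pwm f n)) ≫ (f ▷ tpow X n) := by
    rw [Category.assoc, ← pwm_succ]
    rfl
  have h := h1 X (tpow X n) ((gs ε X n ≫ (X ◁ pwm f n)) ≫ (f ▷ tpow X n))
  rw [rpt_right, ← e] at h
  exact h

theorem M_sum (h2 : S_PWG T) {X : T} (f : End X) (ε : ℤ) (hε : ε * ε = 1) (n : ℕ) :
    M (X := X) f ε n = ∑ k ∈ Finset.range (n + 1), (ε ^ k * (n.descFactorial k : ℤ)) •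
      (act X (c (X := X) f ε (n - k)) ≫ ((f ^ k : End X) : X ⟶ X)) := by
  induction n with
  | zero =>
    rw [M_zero, Finset.sum_range_one, Nat.descFactorial_zero, pow_zero, pow_zero, Nat.cast_one,
      mul_one, one_smul]
    exact (Category.comp_id _).symm
  | succ n ih =>
    rw [M_succ h2 (X := X) f ε hε n, ih, Finset.sum_range_succ' _ (n + 1), add_comm]
    congr 1
    · rw [Preadditive.sum_comp, Finset.smul_sum]
      refine Finset.sum_congr rfl fun k hk => ?_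
      rw [Preadditive.zsmul_comp, smul_smul, Category.assoc, Nat.add_sub_add_right]
      have hf : ((f ^ k : End X) : X ⟶ X) ≫ (f : X ⟶ X) = ((f ^ (k + 1) : End X) : X ⟶ X) := by
        rw [pow_succ']
        rfl
      rw [hf]
      congr 1
      rw [Nat.succ_descFactorial_succ, pow_succ]
      push_cast
      ring
    · rw [Nat.descFactorial_zero, pow_zero, pow_zero, Nat.cast_one, mul_one, one_smul]
      exact (Category.comp_id _).symm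

variable (T) in
/-- Newton's identities. -/
theorem nwt (h1 : S_TRR T) (h2 : S_PWG T) : S_NWT T := by
  intro X f ε hε n
  have h := c_succ h1 (X := X) f ε n
  rw [M_sum h2 (X := X) f ε hε n, Preadditive.sum_comp, ← trH_apply, map_sum] at h
  refine Eq.trans (show _ = c (X := X) f ε (n + 1) from rfl) (h.trans ?_)
  refine Finset.sum_congr rfl fun k _ => ?_
  have hf : ((f ^ k : End X) : X ⟶ X) ≫ (f : X ⟶ X) = ((f ^ (k + 1) : End X) : X ⟶ X) := by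
    rw [pow_succ']
    rfl
  rw [Preadditive.zsmul_comp, map_zsmul, trH_apply, Category.assoc, hf, tr_act]
  rfl

end rigid

end Pool.Agent.W581.NC
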